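import Pool.Agent.TH231.DFM.Stmts
import Pool.Agent.TH479.AT.STEIN

/-!
# Gaussian integration by parts in one coordinate
-/

set_option autoImplicit false

open MeasureTheory ProbabilityTheory Filter Topology

namespace Pool.Agent.TH89.DFM

open Pool.TH231.DFM

theorem mp {κ : Type} [Fintype κ] [DecidableEq κ] (c : κ) :
    MeasurePreserving (fun p : (κ → ℝ) × ℝ => Function.update p.1 c p.2)
      ((gam κ).prod (gaussianReal 0 1)) (gam κ) := by
  have hm : Measurable (fun p : (κ → ℝ) × ℝ => Function.update p.1 c p.2) := measurable_update'
  refine ⟨hm, ?_⟩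
  unfold gam
  symm
  apply Measure.pi_eq
  intro s hs
  rw [Measure.map_apply hm (MeasurableSet.univ_pi hs)]
  have h1 : (fun p : (κ → ℝ) × ℝ => Function.update p.1 c p.2) ⁻¹' (Set.univ.pi s) =
      (Set.univ.pi (Function.update s c Set.univ)) ×ˢ (s c) := by
    ext p
    simp only [Set.mem_preimage, Set.mem_univ_pi, Set.mem_prod]
    constructor
    · intro h
      refine ⟨fun i => ?_, ?_⟩
      · by_cases hi : i = c
        · subst hi
          simp
        · have := h i
          rw [Function.update_of_ne hi] at this ⊢
          exact this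
      · have := h c
        rwa [Function.update_self] at this
    · rintro ⟨h, h2⟩ i
      by_cases hi : i = c
      · subst hi
        rwa [Function.update_self]
      · have := h i
        rw [Function.update_of_ne hi] at this ⊢
        exact this
  rw [h1, Measure.prod_prod, Measure.pi_pi]
  rw [← Finset.mul_prod_erase Finset.univ _ (Finset.mem_univ c),
    ← Finset.mul_prod_erase Finset.univ (fun i => (gaussianReal 0 1) (s i)) (Finset.mem_univ c)]
  rw [Function.update_self, measure_univ, one_mul, mul_comm]
  congr 1
  refine Finset.prod_congr rfl fun i hi => ?_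
  rw [Function.update_of_ne (Finset.ne_of_mem_erase hi)]

instance {κ : Type} [Fintype κ] : IsProbabilityMeasure (gam κ) := by
  unfold gam
  infer_instance

theorem EE_eq {κ : Type} [Fintype κ] [DecidableEq κ] (c : κ) (F : (κ → ℝ) → ℝ)
    (hF : Continuous F) (hi : Integrable F (gam κ)) :
    EE F = ∫ g, ∫ t, F (Function.update g c t) ∂(gaussianReal 0 1) ∂(gam κ) := by
  have h1 : EE F = ∫ p, F (Function.update p.1 c p.2) ∂((gam κ).prod (gaussianReal 0 1)) := by
    unfold EE
    conv_lhs => rw [← (mp c).map_eq]
    rw [integral_map (mp c).measurable.aemeasurable hF.aestronglyMeasurable]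
  rw [h1]
  have h2 : Integrable (fun p : (κ → ℝ) × ℝ => F (Function.update p.1 c p.2))
      ((gam κ).prod (gaussianReal 0 1)) :=
    ((mp c).integrable_comp hF.aestronglyMeasurable).2 hi
  rw [integral_prod _ h2]

theorem t_STEIN : St_STEIN := by
  intro κ _ _ c f f1 C hf hf1 hb hb1 hd
  have hC : 0 ≤ C := (abs_nonneg _).trans (hb 0)
  have hc : Integrable (fun g : κ → ℝ => g c) (gam κ) := by
    have h1 : Integrable (fun x : ℝ => x) (gaussianReal 0 1) :=
      (memLp_id_gaussianReal 1).integrable (by norm_num)
    exact ((measurePreserving_eval (fun _ : κ => gaussianReal 0 1) c).integrable_comp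
      continuous_id.aestronglyMeasurable).2 h1
  have hF : Continuous (fun g : κ → ℝ => g c * f g) := (continuous_apply c).mul hf
  have hi : Integrable (fun g : κ → ℝ => g c * f g) (gam κ) := by
    refine (hc.abs.const_mul C).mono' hF.aestronglyMeasurable (Eventually.of_forall fun g => ?_)
    rw [Real.norm_eq_abs, abs_mul, mul_comm]
    exact mul_le_mul_of_nonneg_right (hb g) (abs_nonneg _)
  have hi1 : Integrable f1 (gam κ) := by
    refine (integrable_const C).mono' hf1.aestronglyMeasurable (Eventually.of_forall fun g => ?_)
    rw [Real.norm_eq_abs]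
    exact hb1 g
  rw [EE_eq c _ hF hi, EE_eq c f1 hf1 hi1]
  refine integral_congr_ae (Eventually.of_forall fun g => ?_)
  have hu : Continuous (fun t : ℝ => Function.update g c t) :=
    continuous_const.update c continuous_id
  have h3 := Pool.TH479.AT.t_STEIN (fun t => f (Function.update g c t))
    (fun t => f1 (Function.update g c t)) C 0 (fun t => hd g t) (hf1.comp hu)
    (fun x => by simpa using hb _) (fun x => by simpa using hb1 _)
  unfold Pool.TH198.AT.E1 at h3
  simp only [Function.update_self]
  exact h3

end Pool.Agent.TH89.DFM
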